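import Pool.Agent.Helper38.DT.Defs
import Pool.Agent.Helper94.AS.Small

/-!
# Bihomogeneous evaluation of polynomials in two variables
-/

set_option autoImplicit false

namespace Pool.Agent.Helper36.DT

open Polynomial Finset Pool.Agent.Helper93.RatODE Pool.Agent.Helper38.DT

section ring

variable {R : Type*} [CommRing R]

/-- homogeneous evaluation -/
noncomputable def hv (F : R[X]) (n : ℕ) (u w : R) : R :=
  ∑ j ∈ range (n + 1), F.coeff j * u ^ j * w ^ (n - j)

theorem hv_eq (F : R[X]) (n : ℕ) (u w : R) :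
    hv F n u w = MvPolynomial.eval ![u, w] (F.homogenize n) := by
  unfold hv homogenize
  rw [Finset.Nat.sum_antidiagonal_eq_sum_range_succ_mk, map_sum]
  refine sum_congr rfl fun j _ => ?_
  rw [MvPolynomial.eval_monomial, Finsupp.prod_fintype _ _ (by simp)]
  simp [Fin.prod_univ_two, mul_assoc]

theorem hv_mul (F G : R[X]) {m n : ℕ} (hF : F.natDegree ≤ m) (hG : G.natDegree ≤ n) (u w : R) :
    hv (F * G) (m + n) u w = hv F m u w * hv G n u w := by
  rw [hv_eq, hv_eq, hv_eq, homogenize_mul _ _ hF hG, map_mul]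

theorem hv_one (u w : R) : hv (1 : R[X]) 0 u w = 1 := by
  simp [hv]

theorem hv_pow (F : R[X]) {m : ℕ} (hF : F.natDegree ≤ m) (k : ℕ) (u w : R) :
    hv (F ^ k) (k * m) u w = hv F m u w ^ k := by
  induction k with
  | zero => simp [hv_one]
  | succ k ih =>
    rw [pow_succ, Nat.succ_mul, hv_mul _ _ (natDegree_pow_le_of_le k hF) hF, ih, pow_succ]

theorem hv_add (F G : R[X]) (n : ℕ) (u w : R) : hv (F + G) n u w = hv F n u w + hv G n u w := by
  simp [hv, add_mul, sum_add_distrib]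

theorem hv_zero (n : ℕ) (u w : R) : hv (0 : R[X]) n u w = 0 := by
  simp [hv]

theorem hv_sum {ι : Type*} (s : Finset ι) (F : ι → R[X]) (n : ℕ) (u w : R) :
    hv (∑ i ∈ s, F i) n u w = ∑ i ∈ s, hv (F i) n u w := by
  classical
  induction s using Finset.induction_on with
  | empty => simp [hv_zero]
  | insert a s ha ih => rw [sum_insert ha, sum_insert ha, hv_add, ih]

theorem hv_C_mul (c : R) (F : R[X]) (n : ℕ) (u w : R) :
    hv (C c * F) n u w = c * hv F n u w := by
  simp [hv, mul_sum, mul_assoc]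

theorem hv_mul_C (c : R) (F : R[X]) (n : ℕ) (u w : R) :
    hv (F * C c) n u w = hv F n u w * c := by
  rw [mul_comm, hv_C_mul, mul_comm]

theorem hv_map_C (F : R[X]) (n : ℕ) (u w : R) :
    hv (F.map (C : R →+* R[X])) n (C u) (C w) = C (hv F n u w) := by
  simp [hv]

/-- bihomogeneous evaluation: the outer variable (degree `n`) is evaluated at `(z0, z1)`, the inner
variable (degree `m`) at `(y0, y1)` -/
noncomputable def hvv (F : R[X][X]) (m n : ℕ) (y0 y1 z0 z1 : R) : R :=
  hv (hv F n (C z0) (C z1)) m y0 y1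

theorem natDegree_hv_le (F : R[X][X]) (m n : ℕ) (hF : ∀ b, (F.coeff b).natDegree ≤ m) (z0 z1 : R) :
    (hv F n (C z0) (C z1)).natDegree ≤ m := by
  unfold hv
  refine natDegree_sum_le_of_forall_le _ _ fun j _ => ?_
  rw [← C_pow, ← C_pow]
  exact (natDegree_mul_C_le _ _).trans ((natDegree_mul_C_le _ _).trans (hF j))

theorem hvv_mul (F G : R[X][X]) {m n m' n' : ℕ} (hF : F.natDegree ≤ n) (hG : G.natDegree ≤ n')
    (hF' : ∀ b, (F.coeff b).natDegree ≤ m) (hG' : ∀ b, (G.coeff b).natDegree ≤ m')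
    (y0 y1 z0 z1 : R) :
    hvv (F * G) (m + m') (n + n') y0 y1 z0 z1 =
      hvv F m n y0 y1 z0 z1 * hvv G m' n' y0 y1 z0 z1 := by
  unfold hvv
  rw [hv_mul _ _ hF hG, hv_mul _ _ (natDegree_hv_le _ _ _ hF' _ _) (natDegree_hv_le _ _ _ hG' _ _)]

theorem hvv_sum {ι : Type*} (s : Finset ι) (F : ι → R[X][X]) (m n : ℕ) (y0 y1 z0 z1 : R) :
    hvv (∑ i ∈ s, F i) m n y0 y1 z0 z1 = ∑ i ∈ s, hvv (F i) m n y0 y1 z0 z1 := by
  unfold hvv
  rw [hv_sum, hv_sum]

theorem hvv_zero (m n : ℕ) (y0 y1 z0 z1 : R) : hvv (0 : R[X][X]) m n y0 y1 z0 z1 = 0 := by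
  unfold hvv
  rw [hv_zero, hv_zero]

theorem hvv_prod (f g : R[X]) (m n : ℕ) (y0 y1 z0 z1 : R) :
    hvv (C f * g.map C) m n y0 y1 z0 z1 = hv f m y0 y1 * hv g n z0 z1 := by
  unfold hvv
  rw [hv_C_mul, hv_map_C, hv_mul_C]

theorem hvv_coeff (F : R[X][X]) (m n : ℕ) (y0 y1 z0 z1 : R) :
    hvv F m n y0 y1 z0 z1 =
      ∑ b ∈ range (n + 1), hv (F.coeff b) m y0 y1 * (z0 ^ b * z1 ^ (n - b)) := by
  have h0 : hv F n (C z0) (C z1) = ∑ b ∈ range (n + 1), F.coeff b * C (z0 ^ b * z1 ^ (n - b)) := by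
    unfold hv
    refine sum_congr rfl fun b _ => ?_
    rw [C_mul, C_pow, C_pow, mul_assoc]
  unfold hvv
  rw [h0, hv_sum]
  exact sum_congr rfl fun b _ => hv_mul_C _ _ _ _ _

end ring

section field

variable {E : Type} [Field E]

theorem hv_eq_hev (F : E[X]) (n : ℕ) (u w : E) : hv F n u w = hev F n u w := by
  simp [hv, hev]

theorem hvv_eq_bev (F : E[X][X]) (m n : ℕ) (y0 y1 z0 z1 : E) :
    hvv F m n y0 y1 z0 z1 = bev (fun a b => (F.coeff b).coeff a) m n y0 y1 z0 z1 := by
  rw [hvv_coeff]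
  unfold bev hv
  rw [sum_comm]
  refine sum_congr rfl fun b _ => ?_
  rw [sum_mul]
  refine sum_congr rfl fun a _ => ?_
  ring

theorem hvv_swap (F : E[X][X]) (m n : ℕ) (y0 y1 z0 z1 : E) :
    hvv (Bivariate.swap F) n m z0 z1 y0 y1 = hvv F m n y0 y1 z0 z1 := by
  rw [hvv_eq_bev, hvv_eq_bev]
  unfold bev
  rw [sum_comm]
  refine sum_congr rfl fun b _ => ?_
  refine sum_congr rfl fun a _ => ?_
  simp only [Pool.Agent.Helper94.AS.coeff_coeff_swap]
  ring

theorem natDegree_coeff_le_swap (F : E[X][X]) (b : ℕ) :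
    (F.coeff b).natDegree ≤ (Bivariate.swap F).natDegree := by
  by_cases h : F.coeff b = 0
  · rw [h]; simp
  · apply le_natDegree_of_ne_zero
    intro h0
    have h1 := Pool.Agent.Helper94.AS.coeff_coeff_swap F (F.coeff b).natDegree b
    rw [h0, coeff_zero] at h1
    exact h (leadingCoeff_eq_zero.1 h1.symm)

theorem natDegree_swap_le (F : E[X][X]) (m : ℕ) (h : ∀ b, (F.coeff b).natDegree ≤ m) :
    (Bivariate.swap F).natDegree ≤ m := by
  rw [natDegree_le_iff_coeff_eq_zero]
  intro a ha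
  ext b
  rw [Pool.Agent.Helper94.AS.coeff_coeff_swap, coeff_zero]
  exact coeff_eq_zero_of_natDegree_lt ((h b).trans_lt ha)

/-- A primitive polynomial has a nonzero fibre over every point of the projective line. -/
theorem exists_hvv_ne_zero [Infinite E] (Q : E[X][X]) (hQ : Q.IsPrimitive) (hQ0 : Q ≠ 0) (y0 y1 : E)
    (hy : y0 ≠ 0 ∨ y1 ≠ 0) :
    ∃ z0 z1 : E, hvv Q (Bivariate.swap Q).natDegree Q.natDegree y0 y1 z0 z1 ≠ 0 := by
  classical
  set m := (Bivariate.swap Q).natDegree with hm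
  set n := Q.natDegree with hn
  by_contra hcon
  push Not at hcon
  -- all fibre coefficients vanish
  have h1 : ∀ b ≤ n, hv (Q.coeff b) m y0 y1 = 0 := by
    set g : E[X] := ∑ b ∈ range (n + 1), monomial b (hv (Q.coeff b) m y0 y1) with hg
    have h2 : g = 0 := by
      apply Polynomial.funext
      intro z
      have := hcon z 1
      rw [hvv_coeff] at this
      rw [hg, eval_finsetSum, eval_zero, ← this]
      refine sum_congr rfl fun b _ => ?_
      rw [eval_monomial]
      ring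
    intro b hb
    have h3 := congrArg (fun p => Polynomial.coeff p b) h2
    simp only [hg, finsetSum_coeff, coeff_monomial, coeff_zero] at h3
    rw [sum_ite_eq' (range (n + 1)) b] at h3
    rwa [if_pos (mem_range.2 (by omega))] at h3
  by_cases h0 : y1 = 0
  · subst h0
    have hy0 : y0 ≠ 0 := by simpa using hy
    have h2 : (Bivariate.swap Q).leadingCoeff ≠ 0 := by
      rw [Ne, leadingCoeff_eq_zero, EmbeddingLike.map_eq_zero_iff]
      exact hQ0
    apply h2
    rw [leadingCoeff, ← hm]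
    ext b
    rw [Pool.Agent.Helper94.AS.coeff_coeff_swap, coeff_zero]
    by_cases hb : b ≤ n
    · have h3 := h1 b hb
      rw [hv_eq_hev, hev_right_zero] at h3
      rcases mul_eq_zero.1 h3 with h4 | h4
      · simpa using h4
      · exact absurd h4 (pow_ne_zero _ hy0)
    · rw [coeff_eq_zero_of_natDegree_lt (not_le.1 hb), coeff_zero]
  · have h2 : ∀ b, (X - C (y0 / y1)) ∣ Q.coeff b := by
      intro b
      by_cases hb : b ≤ n
      · rw [dvd_iff_isRoot, IsRoot.def]
        have h3 := h1 b hb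
        rw [hv_eq_hev, hev_eq_eval _ _ (natDegree_coeff_le_swap Q b) _ _ h0] at h3
        rcases mul_eq_zero.1 h3 with h4 | h4
        · exact absurd h4 (pow_ne_zero _ h0)
        · exact h4
      · rw [coeff_eq_zero_of_natDegree_lt (not_le.1 hb)]
        exact dvd_zero _
    have h3 := hQ _ (C_dvd_iff_dvd_coeff _ _ |>.2 h2)
    exact not_isUnit_X_sub_C _ h3

end field

end Pool.Agent.Helper36.DT
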