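import Pool.Agent.Helper36.DT.Min
import Pool.Agent.Helper36.DT.Hom
import Pool.Agent.Helper16.BBDefs

/-!
# DT8: an invariant correspondence from two functions on a curve with an endomorphism
-/

set_option autoImplicit false

namespace Pool.Agent.Helper36.DT

open Polynomial Finset Pool.Agent.Helper93.RatODE Pool.Agent.Helper38.DT Pool.Agent.Helper16

/-- two functions `y`, `z` on a curve with an endomorphism `Ψ` lying over `A / B` and `U / W`
give an invariant correspondence. -/
theorem dt8 {E M : Type} [Field E] [IsAlgClosed E] [Field M] [Algebra E M]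
    (hM : IsFunctionField E M) (Ψ : M →ₐ[E] M) (y z : M) (hy : Transcendental E y)
    (hz : Transcendental E z) (A B U W : E[X]) (δ e : ℕ) (hAB : IsRatD A B δ)
    (hUW : IsRatD U W e) (h1 : Ψ y * aeval y B = aeval y A) (h2 : Ψ z * aeval z W = aeval z U) :
    ∃ (q : ℕ → ℕ → E) (m n : ℕ), Corr q m n A B δ U W e := by
  classical
  have : Infinite E := IsAlgClosed.instInfinite
  obtain ⟨Q, hQp, hQ0, hQd⟩ := exists_prime_relation hM y z hy
  have hQn : Q.natDegree ≠ 0 := by
    intro h
    rw [eq_C_of_natDegree_eq_zero h, aevalAeval_C] at hQ0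
    have h1 : Q.coeff 0 = 0 := (transcendental_iff.1 hy) _ hQ0
    apply hQp.ne_zero
    rw [eq_C_of_natDegree_eq_zero h, h1, C_0]
  have hsp : Prime (Bivariate.swap Q) :=
    (MulEquiv.prime_iff (Bivariate.swap (R := E)).toMulEquiv).2 hQp
  have hsm : (Bivariate.swap Q).natDegree ≠ 0 := by
    intro h
    have h3 : (Bivariate.swap Q).aevalAeval z y = 0 := by
      rw [Bivariate.aevalAeval_swap, hQ0]
    rw [eq_C_of_natDegree_eq_zero h, aevalAeval_C] at h3
    have h1 : (Bivariate.swap Q).coeff 0 = 0 := (transcendental_iff.1 hz) _ h3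
    apply hsp.ne_zero
    rw [eq_C_of_natDegree_eq_zero h, h1, C_0]
  have hprim : Q.IsPrimitive := hQp.irreducible.isPrimitive hQn
  have hsprim : (Bivariate.swap Q).IsPrimitive := hsp.irreducible.isPrimitive hsm
  set m := (Bivariate.swap Q).natDegree with hm
  set n := Q.natDegree with hn
  refine ⟨fun a b => (Q.coeff b).coeff a, m, n, ?_, ?_, Nat.one_le_iff_ne_zero.2 hQn, ?_⟩
  · intro y0 y1 hy01
    obtain ⟨z0, z1, h⟩ := exists_hvv_ne_zero Q hprim hQp.ne_zero y0 y1 hy01
    exact ⟨z0, z1, by rwa [hvv_eq_bev] at h⟩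
  · intro z0 z1 hz01
    obtain ⟨y0, y1, h⟩ := exists_hvv_ne_zero (Bivariate.swap Q) hsprim hsp.ne_zero z0 z1 hz01
    rw [Bivariate.swap_swap_apply, hvv_swap, hvv_eq_bev] at h
    exact ⟨y0, y1, h⟩
  · intro y0 y1 z0 z1 h0
    -- the composed polynomial
    set P : E[X][X] := ∑ b ∈ range (n + 1), ∑ a ∈ range (m + 1),
      C (C ((Q.coeff b).coeff a) * (A ^ a * B ^ (m - a))) * (U ^ b * W ^ (n - b)).map C with hP
    have hPev : hvv P (m * δ) (n * e) y0 y1 z0 z1 =
        bev (fun a b => (Q.coeff b).coeff a) m n (hev A δ y0 y1) (hev B δ y0 y1)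
          (hev U e z0 z1) (hev W e z0 z1) := by
      rw [hP, hvv_sum]
      unfold bev
      rw [sum_comm]
      refine sum_congr rfl fun b hb => ?_
      rw [hvv_sum]
      refine sum_congr rfl fun a ha => ?_
      rw [mem_range] at ha hb
      rw [hvv_prod, hv_C_mul]
      have e1 : m * δ = a * δ + (m - a) * δ := by rw [← add_mul]; congr 1; omega
      have e2 : n * e = b * e + (n - b) * e := by rw [← add_mul]; congr 1; omega
      rw [e1, e2, hv_mul _ _ (natDegree_pow_le_of_le a hAB.degF)
        (natDegree_pow_le_of_le (m - a) hAB.degG), hv_mul _ _ (natDegree_pow_le_of_le b hUW.degF)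
        (natDegree_pow_le_of_le (n - b) hUW.degG), hv_pow _ hAB.degF, hv_pow _ hAB.degG,
        hv_pow _ hUW.degF, hv_pow _ hUW.degG, hv_eq_hev, hv_eq_hev, hv_eq_hev, hv_eq_hev]
      ring
    rw [← hPev]
    -- `P` vanishes at `(y, z)`
    have hQsum : ∑ b ∈ range (n + 1), ∑ a ∈ range (m + 1),
        algebraMap E M ((Q.coeff b).coeff a) * y ^ a * z ^ b = 0 := by
      rw [← hQ0, aevalAeval_eq_eval₂, eval₂_eq_sum_range]
      refine sum_congr rfl fun b _ => ?_
      rw [AlgHom.toRingHom_eq_coe, RingHom.coe_coe,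
        aeval_eq_sum_range' (n := m + 1) (Nat.lt_succ_of_le (natDegree_coeff_le_swap Q b)), sum_mul]
      refine sum_congr rfl fun a _ => ?_
      rw [Algebra.smul_def]
    have hPz : P.aevalAeval y z = 0 := by
      have h3 : P.aevalAeval y z = aeval y B ^ m * aeval z W ^ n *
          Ψ (∑ b ∈ range (n + 1), ∑ a ∈ range (m + 1),
            algebraMap E M ((Q.coeff b).coeff a) * y ^ a * z ^ b) := by
        rw [hP, map_sum, map_sum, mul_sum]
        refine sum_congr rfl fun b hb => ?_
        rw [map_sum, map_sum, mul_sum]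
        refine sum_congr rfl fun a ha => ?_
        rw [mem_range] at ha hb
        have h5 : ∀ g : E[X], (g.map (C : E →+* E[X])).aevalAeval y z = aeval z g := by
          intro g
          rw [← Bivariate.swap_C, Bivariate.aevalAeval_swap, aevalAeval_C]
        rw [map_mul, h5, aevalAeval_C]
        simp only [map_mul, map_pow, aeval_C, AlgHom.commutes]
        rw [← h1, ← h2, mul_pow, mul_pow]
        have e1 : aeval y B ^ m = aeval y B ^ a * aeval y B ^ (m - a) := by
          rw [← pow_add]; congr 1; omega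
        have e2 : aeval z W ^ n = aeval z W ^ b * aeval z W ^ (n - b) := by
          rw [← pow_add]; congr 1; omega
        rw [e1, e2]
        ring
      rw [h3, hQsum, map_zero, mul_zero]
    obtain ⟨T, hT⟩ := hQd P hPz
    by_cases hT0 : T = 0
    · rw [hT, hT0, mul_zero, hvv_zero]
    have hQne : Q ≠ 0 := hQp.ne_zero
    -- degrees
    have hPn : P.natDegree ≤ n * e := by
      rw [hP]
      refine natDegree_sum_le_of_forall_le _ _ fun b hb => ?_
      refine natDegree_sum_le_of_forall_le _ _ fun a _ => ?_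
      rw [mem_range] at hb
      refine (natDegree_C_mul_le _ _).trans (natDegree_map_le.trans ?_)
      have e2 : n * e = b * e + (n - b) * e := by rw [← add_mul]; congr 1; omega
      rw [e2]
      exact natDegree_mul_le_of_le (natDegree_pow_le_of_le b hUW.degF)
        (natDegree_pow_le_of_le (n - b) hUW.degG)
    have hPm : ∀ b, (P.coeff b).natDegree ≤ m * δ := by
      intro b'
      rw [hP, finsetSum_coeff]
      refine natDegree_sum_le_of_forall_le _ _ fun b _ => ?_
      rw [finsetSum_coeff]
      refine natDegree_sum_le_of_forall_le _ _ fun a ha => ?_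
      rw [mem_range] at ha
      rw [coeff_C_mul, coeff_map]
      refine (natDegree_mul_C_le _ _).trans ((natDegree_C_mul_le _ _).trans ?_)
      have e1 : m * δ = a * δ + (m - a) * δ := by rw [← add_mul]; congr 1; omega
      rw [e1]
      exact natDegree_mul_le_of_le (natDegree_pow_le_of_le a hAB.degF)
        (natDegree_pow_le_of_le (m - a) hAB.degG)
    have hTn : n + T.natDegree = P.natDegree := by
      rw [hT, natDegree_mul hQne hT0]
    have hTm : m + (Bivariate.swap T).natDegree = (Bivariate.swap P).natDegree := by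
      rw [hT, map_mul, natDegree_mul hsp.ne_zero]
      rwa [Ne, EmbeddingLike.map_eq_zero_iff]
    have hsP := natDegree_swap_le P (m * δ) hPm
    obtain ⟨n', hn'⟩ : ∃ n', n * e = n + n' := Nat.exists_eq_add_of_le (by omega)
    obtain ⟨m', hm'⟩ : ∃ m', m * δ = m + m' := Nat.exists_eq_add_of_le (by omega)
    rw [hn', hm', hT, hvv_mul Q T le_rfl (by omega) (natDegree_coeff_le_swap Q)
      (fun b => (natDegree_coeff_le_swap T b).trans (by omega)), hvv_eq_bev Q, h0, zero_mul]

end Pool.Agent.Helper36.DT
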