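import Pool.Agent.Helper16.FF1
import Pool.Agent.Helper16.FF8

/-!
# The irreducible relation between two functions on a curve
-/

set_option autoImplicit false
set_option linter.style.haveILetI false

namespace Pool.Agent.Helper36.DT

open Polynomial IntermediateField Pool.Agent.Helper16

theorem aevalAeval_eq_eval₂ {E M : Type} [Field E] [Field M] [Algebra E M] (y z : M)
    (R : E[X][X]) : R.aevalAeval y z = R.eval₂ (aeval y : E[X] →ₐ[E] M).toRingHom z := by
  induction R using Polynomial.induction_on' with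
  | add a b ha hb => rw [map_add, eval₂_add, ha, hb]
  | monomial n a =>
    rw [eval₂_monomial, ← C_mul_X_pow_eq_monomial, map_mul, map_pow, aevalAeval_C, aevalAeval_Y]
    rfl

theorem exists_relation {E M : Type} [Field E] [Field M] [Algebra E M]
    (hM : IsFunctionField E M) (y z : M) (hy : Transcendental E y) :
    ∃ P : E[X][X], P ≠ 0 ∧ P.aevalAeval y z = 0 := by
  haveI := hM.finiteDimensional y hy
  letI := algXF E y
  letI := algX E y
  haveI := towerXF (K := E) y
  haveI := isFractionRing_algXF (K := E) y hy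
  have h1 : IsAlgebraic E⟮y⟯ z := Algebra.IsAlgebraic.isAlgebraic z
  have h2 : IsAlgebraic E[X] z := (IsFractionRing.isAlgebraic_iff E[X] E⟮y⟯ M).2 h1
  obtain ⟨P, hP, hz⟩ := h2
  refine ⟨P, hP, ?_⟩
  have h3 : aeval z P = P.aevalAeval y z := by
    rw [aeval_def, aevalAeval_eq_eval₂]
    rfl
  rw [← h3, hz]

/-- Two functions on a curve satisfy an irreducible relation which divides all relations. -/
theorem exists_prime_relation {E M : Type} [Field E] [Field M] [Algebra E M]
    (hM : IsFunctionField E M) (y z : M) (hy : Transcendental E y) :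
    ∃ Q : E[X][X], Prime Q ∧ Q.aevalAeval y z = 0 ∧
      ∀ P : E[X][X], P.aevalAeval y z = 0 → Q ∣ P := by
  classical
  set 𝔭 : Ideal E[X][X] := RingHom.ker (aevalAeval (R := E) y z) with h𝔭
  haveI : 𝔭.IsPrime := RingHom.ker_isPrime _
  have hne : 𝔭 ≠ ⊥ := by
    obtain ⟨P, hP, h0⟩ := exists_relation hM y z hy
    intro h
    exact hP ((Ideal.mem_bot).1 (h ▸ (RingHom.mem_ker.2 h0)))
  obtain ⟨Q, hQ, hQp⟩ := Ideal.IsPrime.exists_mem_prime_of_ne_bot ‹_› hne
  have hQ0 : Q.aevalAeval y z = 0 := RingHom.mem_ker.1 hQ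
  have hdeg : Q.natDegree ≠ 0 := by
    intro h
    rw [eq_C_of_natDegree_eq_zero h, aevalAeval_C] at hQ0
    have h1 : Q.coeff 0 = 0 := (transcendental_iff.1 hy) _ hQ0
    apply hQp.ne_zero
    rw [eq_C_of_natDegree_eq_zero h, h1, C_0]
  have hprim : Q.IsPrimitive := hQp.irreducible.isPrimitive hdeg
  refine ⟨Q, hQp, hQ0, fun P hP => ?_⟩
  letI := algX E y
  haveI := faithfulX (K := E) y hy
  -- the embedding of the fraction field
  let K := FractionRing E[X]
  have hinj : Function.Injective (algebraMap E[X] M) := FaithfulSMul.algebraMap_injective _ _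
  let θ : K →+* M := IsFractionRing.lift hinj
  have hθ : ∀ p : E[X], θ (algebraMap E[X] K p) = aeval y p := fun p => by
    change IsFractionRing.lift hinj (algebraMap E[X] K p) = _
    rw [IsFractionRing.lift_algebraMap]
    rfl
  have hev : ∀ R : E[X][X], (R.map (algebraMap E[X] K)).eval₂ θ z = R.aevalAeval y z := by
    intro R
    rw [eval₂_map]
    have h1 : θ.comp (algebraMap E[X] K) = (aeval y : E[X] →ₐ[E] M).toRingHom := by
      ext p
      · simp [hθ]
      · simp [hθ]
    rw [h1, aevalAeval_eq_eval₂]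
  have hirr : Irreducible (Q.map (algebraMap E[X] K)) :=
    (hprim.irreducible_iff_irreducible_map_fraction_map).1 hQp.irreducible
  have hdvd : Q.map (algebraMap E[X] K) ∣ P.map (algebraMap E[X] K) := by
    by_contra hcon
    have hcop : IsCoprime (Q.map (algebraMap E[X] K)) (P.map (algebraMap E[X] K)) :=
      (hirr.coprime_iff_not_dvd).2 hcon
    obtain ⟨a, b, hab⟩ := hcop
    have h1 := congrArg (fun R => R.eval₂ θ z) hab
    simp only [eval₂_add, eval₂_mul, hev, hQ0, hP, mul_zero, add_zero, eval₂_one] at h1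
    exact zero_ne_one h1
  by_cases hP0 : P = 0
  · rw [hP0]; exact dvd_zero _
  have hcont : algebraMap E[X] K P.content ≠ 0 := by
    rw [Ne, IsFractionRing.to_map_eq_zero_iff, content_eq_zero_iff]
    exact hP0
  have h2 : Q.map (algebraMap E[X] K) ∣ P.primPart.map (algebraMap E[X] K) := by
    have h3 : P.map (algebraMap E[X] K) =
        C (algebraMap E[X] K P.content) * P.primPart.map (algebraMap E[X] K) := by
      conv_lhs => rw [P.eq_C_content_mul_primPart]
      rw [Polynomial.map_mul, map_C]
    rw [h3] at hdvd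
    exact (IsUnit.dvd_mul_left (isUnit_C.2 (isUnit_iff_ne_zero.2 hcont))).1 hdvd
  have h4 : Q ∣ P.primPart :=
    IsPrimitive.dvd_of_fraction_map_dvd_fraction_map (K := K) hprim h2
  exact h4.trans P.primPart_dvd

end Pool.Agent.Helper36.DT
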